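import Mathlib
import Pool.Agent.H373R2.T7.BilF

/-!
# A convolution inequality: Parseval and the sup norm of one exponential sum
-/

set_option autoImplicit false

namespace Pool.Agent.Q236.EH

open Finset Pool.Agent.H807R2.Dav Pool.Agent.H373R2.T7

/-- The `L²` norm of a convolution is at most the sup norm of one exponential sum times the `L²` norm
of the other sequence. -/
theorem conv_l2 (X : ℕ) (a b : ℕ → ℝ) (S : ℝ)
    (hS : ∀ α : ℝ, ‖∑ k ∈ Icc 1 X, ((b k : ℝ) : ℂ) * ee ((k : ℝ) * α)‖ ≤ S) :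
    ∑ N ∈ Icc 1 X, (∑ k ∈ Ico 1 N, b k * a (N - k)) ^ 2 ≤ S ^ 2 * ∑ n ∈ Icc 1 X, a n ^ 2 := by
  classical
  set M : ℕ := 2 * X + 1 with hM
  have hM1 : 1 ≤ M := by omega
  have hM0 : (0 : ℝ) < M := by exact_mod_cast hM1
  have hS0 : 0 ≤ S := (norm_nonneg _).trans (hS 0)
  set c : ℕ → ℝ := fun N => ∑ x ∈ (Icc 1 X ×ˢ Icc 1 X).filter (fun x => x.1 + x.2 = N), a x.1 * b x.2
    with hc
  -- the coefficients below `X`
  have hcN : ∀ N ∈ Icc 1 X, c N = ∑ k ∈ Ico 1 N, b k * a (N - k) := by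
    intro N hN
    rw [mem_Icc] at hN
    rw [hc]
    symm
    refine sum_bij (fun k _ => (N - k, k)) ?_ ?_ ?_ ?_
    · intro k hk
      rw [mem_Ico] at hk
      simp only [mem_filter, mem_product, mem_Icc]
      omega
    · intro k1 h1 k2 h2 h
      simp only [Prod.mk.injEq] at h
      exact h.2
    · intro x hx
      simp only [mem_filter, mem_product, mem_Icc] at hx
      refine ⟨x.2, by rw [mem_Ico]; omega, ?_⟩
      ext
      · simp only; omega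
      · rfl
    · intro k hk
      ring
  -- the product of the two exponential sums
  have hprod : ∀ t : ℕ, (∑ n ∈ Icc 1 X, ((a n : ℝ) : ℂ) * ee ((t : ℝ) * (((1 * (n : ℤ) : ℤ) : ℝ) / M))) *
      (∑ k ∈ Icc 1 X, ((b k : ℝ) : ℂ) * ee ((k : ℝ) * ((t : ℝ) / M))) =
      ∑ N ∈ Icc 1 (2 * X), ((c N : ℝ) : ℂ) * ee ((t : ℝ) * (((1 * (N : ℤ) : ℤ) : ℝ) / M)) := by
    intro t
    rw [sum_mul_sum, ← sum_product']
    rw [← sum_fiberwise_of_maps_to (s := Icc 1 X ×ˢ Icc 1 X) (t := Icc 1 (2 * X))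
      (g := fun x : ℕ × ℕ => x.1 + x.2)]
    · refine sum_congr rfl fun N hN => ?_
      rw [hc]
      push_cast
      rw [sum_mul]
      refine sum_congr rfl fun x hx => ?_
      rw [mem_filter] at hx
      have h1 : (t : ℝ) * ((1 * (N : ℝ)) / M) = (t : ℝ) * ((1 * (x.1 : ℝ)) / M) + (x.2 : ℝ) * ((t : ℝ) / M) := by
        rw [← hx.2]
        push_cast
        ring
      rw [h1, ee_add]
      ring
    · intro x hx
      simp only [mem_product, mem_Icc] at hx ⊢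
      omega
  have h2 := parseval_Icc (2 * X) M hM1 (by omega) (fun N => ((c N : ℝ) : ℂ)) 1 (Or.inl rfl)
  have h3 := parseval_Icc X M hM1 (by omega) (fun n => ((a n : ℝ) : ℂ)) 1 (Or.inl rfl)
  have h4 : ∑ t ∈ range M, ‖∑ N ∈ Icc 1 (2 * X), ((c N : ℝ) : ℂ) * ee ((t : ℝ) * (((1 * (N : ℤ) : ℤ) : ℝ) / M))‖ ^ 2 ≤
      S ^ 2 * ∑ t ∈ range M, ‖∑ n ∈ Icc 1 X, ((a n : ℝ) : ℂ) * ee ((t : ℝ) * (((1 * (n : ℤ) : ℤ) : ℝ) / M))‖ ^ 2 := by
    rw [mul_sum]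
    refine sum_le_sum fun t _ => ?_
    rw [← hprod t, norm_mul, mul_pow, mul_comm]
    exact mul_le_mul_of_nonneg_right (pow_le_pow_left₀ (norm_nonneg _) (hS _) 2) (sq_nonneg _)
  have h2' : ∑ t ∈ range M, ‖∑ N ∈ Icc 1 (2 * X), ((c N : ℝ) : ℂ) * ee ((t : ℝ) * (((1 * (N : ℤ) : ℤ) : ℝ) / M))‖ ^ 2 =
      M * ∑ N ∈ Icc 1 (2 * X), c N ^ 2 := by
    rw [h2]
    congr 1
    refine sum_congr rfl fun N _ => ?_
    rw [Complex.norm_real, Real.norm_eq_abs, sq_abs]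
  have h3' : ∑ t ∈ range M, ‖∑ n ∈ Icc 1 X, ((a n : ℝ) : ℂ) * ee ((t : ℝ) * (((1 * (n : ℤ) : ℤ) : ℝ) / M))‖ ^ 2 =
      M * ∑ n ∈ Icc 1 X, a n ^ 2 := by
    rw [h3]
    congr 1
    refine sum_congr rfl fun N _ => ?_
    rw [Complex.norm_real, Real.norm_eq_abs, sq_abs]
  rw [h2', h3'] at h4
  have h5 : ∑ N ∈ Icc 1 (2 * X), c N ^ 2 ≤ S ^ 2 * ∑ n ∈ Icc 1 X, a n ^ 2 := by
    have h6 : (M : ℝ) * ∑ N ∈ Icc 1 (2 * X), c N ^ 2 ≤ M * (S ^ 2 * ∑ n ∈ Icc 1 X, a n ^ 2) := by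
      linarith [h4]
    exact le_of_mul_le_mul_left h6 hM0
  refine le_trans ?_ h5
  calc ∑ N ∈ Icc 1 X, (∑ k ∈ Ico 1 N, b k * a (N - k)) ^ 2 = ∑ N ∈ Icc 1 X, c N ^ 2 :=
        sum_congr rfl fun N hN => by rw [hcN N hN]
    _ ≤ _ := by
        refine sum_le_sum_of_subset_of_nonneg ?_ fun _ _ _ => sq_nonneg _
        intro N hN
        rw [mem_Icc] at hN ⊢
        omega

end Pool.Agent.Q236.EH
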