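import Mathlib

/-!
# The Moebius function at multiples of `q`
-/

set_option autoImplicit false

namespace Pool.Agent.Q236.EH

open Finset ArithmeticFunction

/-- the indicator function of the integers all of whose prime factors divide `q` -/
def fq (q : ℕ) : ArithmeticFunction ℤ :=
  ⟨fun n => if n = 0 then 0 else if n.primeFactors ⊆ q.primeFactors then 1 else 0, by simp⟩

lemma fq_apply {q n : ℕ} (hn : n ≠ 0) : fq q n = if n.primeFactors ⊆ q.primeFactors then 1 else 0 := by
  simp [fq, hn]

lemma fq_mult (q : ℕ) : (fq q).IsMultiplicative := by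
  refine ⟨by simp [fq], ?_⟩
  intro m n h
  rcases eq_or_ne m 0 with hm | hm
  · subst hm; simp [fq]
  rcases eq_or_ne n 0 with hn | hn
  · subst hn; simp [fq]
  rw [fq_apply hm, fq_apply hn, fq_apply (mul_ne_zero hm hn)]
  have hu : (m * n).primeFactors ⊆ q.primeFactors ↔
      m.primeFactors ⊆ q.primeFactors ∧ n.primeFactors ⊆ q.primeFactors := by
    rw [Nat.primeFactors_mul hm hn, union_subset_iff]
  by_cases h1 : m.primeFactors ⊆ q.primeFactors <;> by_cases h2 : n.primeFactors ⊆ q.primeFactors <;>
    simp [h1, h2, hu]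

/-- the Moebius function restricted to the integers coprime to `q` -/
def muq (q : ℕ) : ArithmeticFunction ℤ :=
  ⟨fun n => if Nat.Coprime q n then moebius n else 0, by simp⟩

lemma muq_apply (q n : ℕ) : muq q n = if Nat.Coprime q n then moebius n else 0 := rfl

lemma muq_mult (q : ℕ) : (muq q).IsMultiplicative := by
  refine ⟨by simp [muq], ?_⟩
  intro m n h
  rw [muq_apply, muq_apply, muq_apply, isMultiplicative_moebius.map_mul_of_coprime h]
  have hu : Nat.Coprime q (m * n) ↔ Nat.Coprime q m ∧ Nat.Coprime q n := Nat.coprime_mul_iff_right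
  by_cases h1 : Nat.Coprime q m
  · by_cases h2 : Nat.Coprime q n
    · rw [if_pos (hu.2 ⟨h1, h2⟩), if_pos h1, if_pos h2]
    · rw [if_neg (fun h => h2 (hu.1 h).2), if_neg h2, mul_zero]
  · rw [if_neg (fun h => h1 (hu.1 h).1), if_neg h1, zero_mul]

theorem fq_mul_moebius (q : ℕ) (hq : q ≠ 0) : fq q * moebius = muq q := by
  rw [IsMultiplicative.eq_iff_eq_on_prime_powers _ ((fq_mult q).mul isMultiplicative_moebius) _ (muq_mult q)]
  intro p k hp
  rcases Nat.eq_zero_or_pos k with hk | hk
  · subst hk
    simp [((fq_mult q).mul isMultiplicative_moebius).map_one, (muq_mult q).map_one]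
  by_cases hpq : p ∣ q
  · have h1 : (fq q * moebius) (p ^ k) = ((zeta : ArithmeticFunction ℤ) * moebius) (p ^ k) := by
      rw [mul_apply, mul_apply]
      refine sum_congr rfl fun x hx => ?_
      have hx' := (Nat.mem_divisorsAntidiagonal.1 hx).1
      have hx0 : x.1 ≠ 0 := by
        intro h
        rw [h, zero_mul] at hx'
        exact pow_ne_zero k hp.ne_zero hx'.symm
      have hd : x.1 ∣ p ^ k := ⟨x.2, hx'.symm⟩
      rw [fq_apply hx0, if_pos, natCoe_apply, zeta_apply_ne hx0]
      · simp
      · intro r hr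
        have hr1 := Nat.prime_of_mem_primeFactors hr
        have hr2 := (Nat.dvd_of_mem_primeFactors hr).trans hd
        have hr3 : r = p := (Nat.prime_dvd_prime_iff_eq hr1 hp).1 (hr1.dvd_of_dvd_pow hr2)
        rw [hr3]
        exact Nat.mem_primeFactors.2 ⟨hp, hpq, hq⟩
    rw [h1, coe_zeta_mul_moebius, one_apply_ne, muq_apply, if_neg]
    · intro h
      have h2 := Nat.Coprime.coprime_dvd_right (dvd_pow_self p hk.ne') h
      exact hp.one_lt.ne' (Nat.Coprime.eq_one_of_dvd h2.symm hpq)
    · exact (Nat.one_lt_pow hk.ne' hp.one_lt).ne'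
  · rw [mul_apply, sum_eq_single (1, p ^ k)]
    · rw [(fq_mult q).map_one, one_mul, muq_apply, if_pos]
      exact Nat.Coprime.pow_right k ((Nat.Prime.coprime_iff_not_dvd hp).2 hpq).symm
    · intro x hx hne
      have hx' := (Nat.mem_divisorsAntidiagonal.1 hx).1
      have hx0 : x.1 ≠ 0 := by
        intro h
        rw [h, zero_mul] at hx'
        exact pow_ne_zero k hp.ne_zero hx'.symm
      have hx1 : x.1 ≠ 1 := by
        intro h
        apply hne
        ext
        · exact h
        · rw [← hx', h, one_mul]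
      rw [fq_apply hx0, if_neg, zero_mul]
      intro hs
      obtain ⟨r, hr, hr2⟩ := Nat.exists_prime_and_dvd hx1
      have hr3 : r ∣ p ^ k := hr2.trans ⟨x.2, hx'.symm⟩
      have hr4 : r = p := (Nat.prime_dvd_prime_iff_eq hr hp).1 (hr.dvd_of_dvd_pow hr3)
      have := hs (Nat.mem_primeFactors.2 ⟨hr, hr2, hx0⟩)
      rw [hr4] at this
      exact hpq (Nat.dvd_of_mem_primeFactors this)
    · intro h
      exfalso
      apply h
      rw [Nat.mem_divisorsAntidiagonal]
      exact ⟨one_mul _, pow_ne_zero k hp.ne_zero⟩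

/-- `μ (q m) = μ(q) ∑ μ(m / d)` over the divisors `d` of `m` composed of primes dividing `q`. -/
theorem moebius_mul (q m : ℕ) (hq : q ≠ 0) :
    moebius (q * m) = moebius q * ∑ d ∈ m.divisors.filter (fun d => d.primeFactors ⊆ q.primeFactors),
      moebius (m / d) := by
  have h1 : (fq q * moebius) m = ∑ d ∈ m.divisors.filter (fun d => d.primeFactors ⊆ q.primeFactors),
      moebius (m / d) := by
    rw [mul_apply, Nat.sum_divisorsAntidiagonal (fun a b => fq q a * moebius b), sum_filter]
    refine sum_congr rfl fun d hd => ?_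
    have hd0 : d ≠ 0 := by
      rintro rfl
      simp at hd
    rw [fq_apply hd0]
    split_ifs <;> simp
  rw [← h1, fq_mul_moebius q hq, muq_apply]
  by_cases h : Nat.Coprime q m
  · rw [if_pos h, isMultiplicative_moebius.map_mul_of_coprime h]
  · rw [if_neg h, mul_zero]
    apply moebius_eq_zero_of_not_squarefree
    intro hs
    exact h (Nat.coprime_of_squarefree_mul hs)

end Pool.Agent.Q236.EH
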