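import Mathlib
import Pool.Agent.H373R2.T7.SupMu
import Pool.Agent.Q236.EH.Conv
import Pool.Agent.Q236.EH.Ident

/-!
# The sums over the multiples of `r`
-/

set_option autoImplicit false

namespace Pool.Agent.Q236.EH

open Finset Pool.Agent.H807R2.Dav Pool.Agent.H373R2.T7

/-- the weights `1` and `log` -/
noncomputable def w (j : Bool) (k : ℕ) : ℝ := if j then Real.log k else 1

lemma w_nonneg (j : Bool) (k : ℕ) : 0 ≤ w j k := by
  unfold w
  split_ifs
  · exact Real.log_natCast_nonneg k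
  · exact zero_le_one

lemma w_mono (j : Bool) {k l : ℕ} (hk : 1 ≤ k) (h : k ≤ l) : w j k ≤ w j l := by
  unfold w
  split_ifs
  · exact Real.log_le_log (by exact_mod_cast hk) (by exact_mod_cast h)
  · exact le_rfl

lemma w_le (j : Bool) {k X : ℕ} (hk : 1 ≤ k) (h : k ≤ X) : w j k ≤ 1 + Real.log X := by
  have h1 : Real.log k ≤ Real.log X := Real.log_le_log (by exact_mod_cast hk) (by exact_mod_cast h)
  have h2 : 0 ≤ Real.log (k : ℝ) := Real.log_natCast_nonneg k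
  unfold w
  split_ifs <;> linarith

/-- `Λ` -/
noncomputable def Lam (n : ℕ) : ℝ := ArithmeticFunction.vonMangoldt n

lemma Lam_nonneg (n : ℕ) : 0 ≤ Lam n := ArithmeticFunction.vonMangoldt_nonneg

lemma Lam_le {n X : ℕ} (hn : 1 ≤ n) (h : n ≤ X) : Lam n ≤ 1 + Real.log X := by
  have h1 : Real.log n ≤ Real.log X := Real.log_le_log (by exact_mod_cast hn) (by exact_mod_cast h)
  have h2 : Lam n ≤ Real.log n := ArithmeticFunction.vonMangoldt_le_log
  linarith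

/-- `μ(k / r)` times the weight, at the multiples of `r` -/
noncomputable def br (j : Bool) (r k : ℕ) : ℝ := if r ∣ k then muR (k / r) * w j k else 0

/-- the sum over the multiples of `r` -/
noncomputable def UU (j : Bool) (r N : ℕ) : ℝ := ∑ k ∈ Ico 1 N, br j r k * Lam (N - k)

/-- partial sums up to `Y`, uniformly -/
theorem supmax (U : ℕ) : ∃ N1 : ℕ, ∀ Y : ℕ, N1 ≤ Y → ∀ y : ℕ, y ≤ Y → ∀ α : ℝ,
    ‖∑ n ∈ Icc 1 y, ((muR n : ℝ) : ℂ) * ee ((n : ℝ) * α)‖ ≤ Y / Real.log Y ^ U := by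
  obtain ⟨N0, h0⟩ := sup_mu (U + 1)
  obtain ⟨m1, h1⟩ := ev_log' U 1
  obtain ⟨m2, h2⟩ := ev_L' (2 ^ (U + 1))
  refine ⟨max (max m1 m2) ((N0 + 2) * (N0 + 2)), fun Y hY y hy α => ?_⟩
  have a1 := h1 Y ((le_max_left _ _).trans ((le_max_left _ _).trans hY))
  have a2 := h2 Y ((le_max_right _ _).trans ((le_max_left _ _).trans hY))
  have a3 : (N0 + 2) * (N0 + 2) ≤ Y := (le_max_right _ _).trans hY
  have hY1 : (1 : ℝ) ≤ Y := by
    have : 1 ≤ Y := le_trans (by nlinarith) a3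
    exact_mod_cast this
  have hL : 0 < Real.log (Y : ℝ) := lt_of_lt_of_le (by positivity) a2
  rcases lt_or_ge (y * y) Y with h | h
  · have h3 : ‖∑ n ∈ Icc 1 y, ((muR n : ℝ) : ℂ) * ee ((n : ℝ) * α)‖ ≤ y := by
      refine (norm_sum_le _ _).trans ?_
      calc ∑ n ∈ Icc 1 y, ‖((muR n : ℝ) : ℂ) * ee ((n : ℝ) * α)‖ ≤ ∑ n ∈ Icc 1 y, (1 : ℝ) := by
            refine sum_le_sum fun n _ => ?_
            rw [norm_mul, norm_ee, mul_one, Complex.norm_real, Real.norm_eq_abs]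
            exact muR_abs n
        _ = y := by simp
    have h4 : (y : ℝ) ≤ √Y := by
      apply Real.le_sqrt_of_sq_le
      rw [pow_two]
      exact_mod_cast h.le
    refine h3.trans (h4.trans ?_)
    rw [le_div_iff₀ (by positivity)]
    calc √(Y : ℝ) * Real.log Y ^ U ≤ √Y * √Y := by
          apply mul_le_mul_of_nonneg_left _ (Real.sqrt_nonneg _)
          linarith
      _ = Y := Real.mul_self_sqrt (by linarith)
  · have hy0 : N0 + 2 ≤ y := by
      by_contra hcon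
      push Not at hcon
      have : y * y < (N0 + 2) * (N0 + 2) := Nat.mul_self_lt_mul_self hcon
      omega
    have hyr : (1 : ℝ) ≤ y := by exact_mod_cast (by omega : 1 ≤ y)
    have h3 := h0 y (by omega) α
    refine h3.trans ?_
    have hlog : Real.log Y ≤ 2 * Real.log y := by
      have : Real.log ((y : ℝ) ^ 2) = 2 * Real.log y := by rw [Real.log_pow]; norm_num
      rw [← this]
      apply Real.log_le_log (by linarith)
      rw [pow_two]
      exact_mod_cast h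
    have hly : 0 < Real.log (y : ℝ) := by linarith
    rw [div_le_div_iff₀ (by positivity) (by positivity)]
    have h5 : Real.log (Y : ℝ) ^ (U + 1) ≤ 2 ^ (U + 1) * Real.log y ^ (U + 1) := by
      rw [← mul_pow]
      exact pow_le_pow_left₀ hL.le hlog _
    have h6 : Real.log (Y : ℝ) ^ U * 2 ^ (U + 1) ≤ Real.log Y ^ (U + 1) := by
      rw [pow_succ (Real.log (Y : ℝ))]
      exact mul_le_mul_of_nonneg_left a2 (by positivity)
    have h7 : Real.log (Y : ℝ) ^ U ≤ Real.log y ^ (U + 1) := by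
      have h8 : (2 : ℝ) ^ (U + 1) * Real.log (Y : ℝ) ^ U ≤ 2 ^ (U + 1) * Real.log y ^ (U + 1) := by
        linarith
      exact le_of_mul_le_mul_left h8 (by positivity)
    exact mul_le_mul (by exact_mod_cast hy) h7 (by positivity) (by linarith)

/-- partial summation with a nondecreasing weight -/
lemma abel_mono (c : ℕ → ℂ) (v : ℕ → ℝ) (Y : ℕ) (hY : 1 ≤ Y) (hv : ∀ m ∈ Ico 1 Y, v m ≤ v (m + 1)) (hv0 : 0 ≤ v 1)
    (B : ℝ) (hB : ∀ y ≤ Y, ‖∑ n ∈ Icc 1 y, c n‖ ≤ B) :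
    ‖∑ n ∈ Icc 1 Y, c n * ((v n : ℝ) : ℂ)‖ ≤ 2 * B * v Y := by
  have hid : ∀ Z : ℕ, 1 ≤ Z → ∑ n ∈ Icc 1 Z, c n * ((v n : ℝ) : ℂ) = ((v Z : ℝ) : ℂ) * ∑ n ∈ Icc 1 Z, c n -
      ∑ m ∈ Ico 1 Z, (((v (m + 1) - v m : ℝ)) : ℂ) * ∑ n ∈ Icc 1 m, c n := by
    intro Z hZ
    induction Z, hZ using Nat.le_induction with
    | base => simp; ring
    | succ Z hZ ih =>
      rw [sum_Icc_succ_top (by omega), ih, sum_Icc_succ_top (by omega), sum_Ico_succ_top hZ]
      push_cast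
      ring
  have hmono : ∀ Z : ℕ, 1 ≤ Z → Z ≤ Y → ∑ m ∈ Ico 1 Z, (v (m + 1) - v m) = v Z - v 1 := by
    intro Z hZ
    induction Z, hZ using Nat.le_induction with
    | base => intro; simp
    | succ Z hZ ih =>
      intro hZY
      rw [sum_Ico_succ_top hZ, ih (by omega)]
      ring
  have hB0 : 0 ≤ B := (norm_nonneg _).trans (hB 0 (Nat.zero_le _))
  have hvY : v 1 ≤ v Y := by
    have h1 := hmono Y hY le_rfl
    have h2 : 0 ≤ ∑ m ∈ Ico 1 Y, (v (m + 1) - v m) := sum_nonneg fun m hm => by linarith [hv m hm]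
    linarith
  rw [hid Y hY]
  refine (norm_sub_le _ _).trans ?_
  have h1 : ‖((v Y : ℝ) : ℂ) * ∑ n ∈ Icc 1 Y, c n‖ ≤ v Y * B := by
    rw [norm_mul, Complex.norm_real, Real.norm_eq_abs, abs_of_nonneg (hv0.trans hvY)]
    exact mul_le_mul_of_nonneg_left (hB Y le_rfl) (hv0.trans hvY)
  have h2 : ‖∑ m ∈ Ico 1 Y, (((v (m + 1) - v m : ℝ)) : ℂ) * ∑ n ∈ Icc 1 m, c n‖ ≤ (v Y - v 1) * B := by
    refine (norm_sum_le _ _).trans ?_
    rw [← hmono Y hY le_rfl, sum_mul]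
    refine sum_le_sum fun m hm => ?_
    rw [norm_mul, Complex.norm_real, Real.norm_eq_abs, abs_of_nonneg (by linarith [hv m hm])]
    exact mul_le_mul_of_nonneg_left (hB m (mem_Ico.1 hm).2.le) (by linarith [hv m hm])
  nlinarith

/-- the exponential sum of `br` -/
theorem sup_br (j : Bool) (r X : ℕ) (hr : 1 ≤ r) (hrX : r ≤ X) (B : ℝ)
    (hB : ∀ y ≤ X / r, ∀ α : ℝ, ‖∑ n ∈ Icc 1 y, ((muR n : ℝ) : ℂ) * ee ((n : ℝ) * α)‖ ≤ B) (α : ℝ) :
    ‖∑ k ∈ Icc 1 X, ((br j r k : ℝ) : ℂ) * ee ((k : ℝ) * α)‖ ≤ 2 * B * (1 + Real.log X) := by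
  have hY : 1 ≤ X / r := (Nat.one_le_div_iff (by omega)).2 hrX
  have hB0 : 0 ≤ B := (norm_nonneg _).trans (hB 0 (Nat.zero_le _) 0)
  have h1 : ∑ k ∈ Icc 1 X, ((br j r k : ℝ) : ℂ) * ee ((k : ℝ) * α) =
      ∑ m ∈ Icc 1 (X / r), (((muR m : ℝ) : ℂ) * ee ((m : ℝ) * ((r : ℝ) * α))) * ((w j (r * m) : ℝ) : ℂ) := by
    have h2 : ∑ k ∈ Icc 1 X, ((br j r k : ℝ) : ℂ) * ee ((k : ℝ) * α) =
        ∑ k ∈ (Icc 1 X).filter (fun k => r ∣ k), ((br j r k : ℝ) : ℂ) * ee ((k : ℝ) * α) := by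
      rw [sum_filter]
      refine sum_congr rfl fun k _ => ?_
      split_ifs with h
      · rfl
      · unfold br; rw [if_neg h]; simp
    rw [h2]
    symm
    refine sum_bij (fun m _ => r * m) ?_ ?_ ?_ ?_
    · intro m hm
      rw [mem_Icc] at hm
      rw [mem_filter, mem_Icc]
      refine ⟨⟨Nat.mul_pos (by omega) (by omega), ?_⟩, dvd_mul_right _ _⟩
      calc r * m ≤ r * (X / r) := Nat.mul_le_mul_left _ hm.2
        _ ≤ X := Nat.mul_div_le _ _
    · intro m1 _ m2 _ h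
      exact Nat.eq_of_mul_eq_mul_left (by omega) h
    · intro k hk
      rw [mem_filter, mem_Icc] at hk
      obtain ⟨m, rfl⟩ := hk.2
      refine ⟨m, ?_, rfl⟩
      rw [mem_Icc]
      refine ⟨?_, ?_⟩
      · rcases Nat.eq_zero_or_pos m with h | h
        · subst h; omega
        · exact h
      · exact (Nat.le_div_iff_mul_le (by omega)).2 (by rw [mul_comm]; exact hk.1.2)
    · intro m hm
      unfold br
      rw [if_pos (dvd_mul_right _ _), Nat.mul_div_cancel_left _ (by omega)]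
      push_cast
      have : (r : ℝ) * (m : ℝ) * α = (m : ℝ) * ((r : ℝ) * α) := by ring
      rw [this]
      ring
  rw [h1]
  have h3 := abel_mono (fun m => ((muR m : ℝ) : ℂ) * ee ((m : ℝ) * ((r : ℝ) * α))) (fun m => w j (r * m))
    (X / r) hY (fun m hm => w_mono j (Nat.mul_pos (by omega) (mem_Ico.1 hm).1)
      (Nat.mul_le_mul_left _ (Nat.le_succ m))) (w_nonneg j _) B
    (fun y hy => hB y hy _)
  refine h3.trans ?_
  apply mul_le_mul_of_nonneg_left _ (by linarith)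
  exact w_le j (Nat.mul_pos (by omega) hY) (Nat.mul_div_le _ _)

lemma sum_Lam_sq (X : ℕ) : ∑ n ∈ Icc 1 X, Lam n ^ 2 ≤ X * (1 + Real.log X) ^ 2 := by
  calc ∑ n ∈ Icc 1 X, Lam n ^ 2 ≤ ∑ n ∈ Icc 1 X, (1 + Real.log X) ^ 2 := by
        refine sum_le_sum fun n hn => ?_
        rw [mem_Icc] at hn
        exact pow_le_pow_left₀ (Lam_nonneg n) (Lam_le hn.1 hn.2) 2
    _ = _ := by simp

/-- the second moment of the sums over the multiples of `r` -/
theorem UU_sq (j : Bool) (r X : ℕ) (hr : 1 ≤ r) (hrX : r ≤ X) (B : ℝ)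
    (hB : ∀ y ≤ X / r, ∀ α : ℝ, ‖∑ n ∈ Icc 1 y, ((muR n : ℝ) : ℂ) * ee ((n : ℝ) * α)‖ ≤ B) :
    ∑ N ∈ Icc 1 X, UU j r N ^ 2 ≤ (2 * B * (1 + Real.log X)) ^ 2 * (X * (1 + Real.log X) ^ 2) := by
  refine (conv_l2 X Lam (br j r) _ (sup_br j r X hr hrX B hB)).trans ?_
  exact mul_le_mul_of_nonneg_left (sum_Lam_sq X) (sq_nonneg _)

/-- the trivial bound -/
theorem UU_triv (j : Bool) (r N X : ℕ) (hN : N ≤ X) :
    |UU j r N| ≤ (X : ℝ) / r * (1 + Real.log X) ^ 2 := by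
  have hL : 0 ≤ 1 + Real.log (X : ℝ) := by linarith [Real.log_natCast_nonneg X]
  unfold UU
  refine (abs_sum_le_sum_abs _ _).trans ?_
  have h1 : ∀ k ∈ Ico 1 N, |br j r k * Lam (N - k)| ≤ if r ∣ k then (1 + Real.log X) ^ 2 else 0 := by
    intro k hk
    rw [mem_Ico] at hk
    unfold br
    split_ifs with h
    · rw [abs_mul, abs_mul, abs_of_nonneg (w_nonneg j k), abs_of_nonneg (Lam_nonneg _)]
      have h2 : |muR (k / r)| * w j k ≤ 1 * (1 + Real.log X) :=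
        mul_le_mul (muR_abs _) (w_le j hk.1 (by omega)) (w_nonneg j k) zero_le_one
      calc |muR (k / r)| * w j k * Lam (N - k) ≤ (1 * (1 + Real.log X)) * (1 + Real.log X) :=
            mul_le_mul h2 (Lam_le (by omega) (by omega)) (Lam_nonneg _) (by linarith)
        _ = _ := by ring
    · simp
  refine (sum_le_sum h1).trans ?_
  rw [← sum_filter, sum_const, nsmul_eq_mul]
  apply mul_le_mul_of_nonneg_right _ (sq_nonneg _)
  have h3 : ((Ico 1 N).filter (fun k => r ∣ k)).card ≤ X / r := by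
    have h4 : ((Ico 1 N).filter (fun k => r ∣ k)) ⊆ (Ioc 0 X).filter (fun k => r ∣ k) := by
      intro k hk
      simp only [mem_filter, mem_Ico, mem_Ioc] at hk ⊢
      omega
    refine (card_le_card h4).trans ?_
    rw [Nat.Ioc_filter_dvd_card_eq_div]
  calc ((((Ico 1 N).filter (fun k => r ∣ k)).card : ℕ) : ℝ) ≤ ((X / r : ℕ) : ℝ) := by exact_mod_cast h3
    _ ≤ (X : ℝ) / r := Nat.cast_div_le

end Pool.Agent.Q236.EH
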