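import Mathlib
import Pool.Agent.Q236.EH.Est

/-!
# The decomposition of the sums over a progression and the tail
-/

set_option autoImplicit false

namespace Pool.Agent.Q236.EH

open Finset Pool.Agent.H807R2.Dav Pool.Agent.H373R2.T7

/-- the sum over `n < N`, `n ≡ N (mod q)` -/
noncomputable def TT (j : Bool) (q N : ℕ) : ℝ :=
  ∑ n ∈ (Ico 1 N).filter (fun n => n ≡ N [MOD q]), Lam n * (muR (N - n) * w j (N - n))

lemma TT_refl (j : Bool) (q N : ℕ) :
    TT j q N = ∑ k ∈ (Ico 1 N).filter (fun k => q ∣ k), muR k * w j k * Lam (N - k) := by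
  unfold TT
  refine sum_bij (fun n _ => N - n) ?_ ?_ ?_ ?_
  · intro n hn
    rw [mem_filter, mem_Ico] at hn ⊢
    refine ⟨by omega, ?_⟩
    exact (Nat.modEq_iff_dvd' (by omega)).1 hn.2
  · intro n1 h1 n2 h2 h
    rw [mem_filter, mem_Ico] at h1 h2
    have h' : N - n1 = N - n2 := h
    omega
  · intro k hk
    rw [mem_filter, mem_Ico] at hk
    refine ⟨N - k, ?_, by show N - (N - k) = k; omega⟩
    rw [mem_filter, mem_Ico]
    refine ⟨by omega, ?_⟩
    refine (Nat.modEq_iff_dvd' (by omega)).2 ?_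
    have : N - (N - k) = k := by omega
    rw [this]
    exact hk.2
  · intro n hn
    rw [mem_filter, mem_Ico] at hn
    have : N - (N - n) = n := by omega
    simp only [this]
    ring

lemma TT_one (j : Bool) (N : ℕ) : TT j 1 N = UU j 1 N := by
  rw [TT_refl]
  unfold UU br
  rw [filter_true_of_mem (fun k _ => one_dvd k)]
  refine sum_congr rfl fun k _ => ?_
  rw [if_pos (one_dvd k), Nat.div_one]

/-- the expansion of the sum over a progression -/
theorem TT_eq (j : Bool) (q N : ℕ) (hq : 1 ≤ q) :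
    TT j q N = muR q * ∑ d ∈ (Ico 1 N).filter (fun d => d.primeFactors ⊆ q.primeFactors), UU j (q * d) N := by
  rw [TT_refl]
  have h1 : ∀ k ∈ (Ico 1 N).filter (fun k => q ∣ k), muR k * w j k * Lam (N - k) =
      muR q * ∑ d ∈ (Ico 1 N).filter (fun d => d.primeFactors ⊆ q.primeFactors),
        br j (q * d) k * Lam (N - k) := by
    intro k hk
    rw [mem_filter, mem_Ico] at hk
    obtain ⟨⟨hk1, hk2⟩, m, rfl⟩ := hk
    have hm : m ≠ 0 := by
      rintro rfl
      omega
    have h2 := moebius_mul q m (by omega)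
    have h3 : muR (q * m) = muR q * ∑ d ∈ m.divisors.filter (fun d => d.primeFactors ⊆ q.primeFactors),
        muR (m / d) := by
      unfold muR
      rw [h2]
      push_cast
      rfl
    rw [h3, mul_assoc, mul_assoc, sum_mul]
    congr 1
    have h4 : ∑ d ∈ (Ico 1 N).filter (fun d => d.primeFactors ⊆ q.primeFactors),
        br j (q * d) (q * m) * Lam (N - q * m) =
        ∑ d ∈ ((Ico 1 N).filter (fun d => d.primeFactors ⊆ q.primeFactors)).filter (fun d => d ∣ m),
        br j (q * d) (q * m) * Lam (N - q * m) := by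
      rw [sum_filter (fun d => d ∣ m)]
      refine sum_congr rfl fun d _ => ?_
      split_ifs with h
      · rfl
      · unfold br
        rw [if_neg, zero_mul]
        intro h5
        exact h ((mul_dvd_mul_iff_left (by omega : q ≠ 0)).1 h5)
    rw [h4]
    have h5 : ((Ico 1 N).filter (fun d => d.primeFactors ⊆ q.primeFactors)).filter (fun d => d ∣ m) =
        m.divisors.filter (fun d => d.primeFactors ⊆ q.primeFactors) := by
      ext d
      simp only [mem_filter, mem_Ico, Nat.mem_divisors]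
      constructor
      · rintro ⟨⟨_, h6⟩, h7⟩
        exact ⟨⟨h7, hm⟩, h6⟩
      · rintro ⟨⟨h7, _⟩, h6⟩
        have h8 := Nat.le_of_dvd (Nat.pos_of_ne_zero hm) h7
        have h9 := Nat.pos_of_dvd_of_pos h7 (Nat.pos_of_ne_zero hm)
        have h10 : m ≤ q * m := Nat.le_mul_of_pos_left _ hq
        exact ⟨⟨⟨h9, by omega⟩, h6⟩, h7⟩
    rw [h5]
    refine sum_congr rfl fun d hd => ?_
    rw [mem_filter, Nat.mem_divisors] at hd
    obtain ⟨e, he⟩ := hd.1.1
    have hd0 : 0 < d := Nat.pos_of_dvd_of_pos hd.1.1 (Nat.pos_of_ne_zero hm)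
    unfold br
    rw [if_pos (mul_dvd_mul_left q hd.1.1)]
    have h6 : q * m / (q * d) = m / d := Nat.mul_div_mul_left _ _ (by omega)
    rw [h6]
    ring
  rw [sum_congr rfl h1, ← mul_sum]
  congr 1
  rw [sum_comm]
  refine sum_congr rfl fun d hd => ?_
  rw [mem_filter, mem_Ico] at hd
  unfold UU
  rw [sum_filter]
  refine sum_congr rfl fun k hk => ?_
  split_ifs with h
  · rfl
  · unfold br
    rw [if_neg, zero_mul]
    intro h2
    exact h ((dvd_mul_right q d).trans h2)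

/-- the sum over a progression is bounded by the sums over the multiples of `q d` -/
theorem TT_abs (j : Bool) (q N D X : ℕ) (hq : 1 ≤ q) (hN : N ≤ X) :
    |TT j q N| ≤ ∑ d ∈ Icc 1 D, |UU j (q * d) N| +
      ∑ d ∈ (Ioc D X).filter (fun d => d.primeFactors ⊆ q.primeFactors),
        (X : ℝ) / (q * d : ℕ) * (1 + Real.log X) ^ 2 := by
  rw [TT_eq j q N hq, abs_mul]
  have h1 : |muR q| * |∑ d ∈ (Ico 1 N).filter (fun d => d.primeFactors ⊆ q.primeFactors), UU j (q * d) N| ≤
      ∑ d ∈ (Ico 1 N).filter (fun d => d.primeFactors ⊆ q.primeFactors), |UU j (q * d) N| := by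
    calc _ ≤ 1 * |∑ d ∈ (Ico 1 N).filter (fun d => d.primeFactors ⊆ q.primeFactors), UU j (q * d) N| :=
          mul_le_mul_of_nonneg_right (muR_abs q) (abs_nonneg _)
      _ ≤ _ := by rw [one_mul]; exact abs_sum_le_sum_abs _ _
  refine h1.trans ?_
  set s := (Ico 1 N).filter (fun d => d.primeFactors ⊆ q.primeFactors) with hs
  rw [← sum_filter_add_sum_filter_not s (fun d => d ≤ D)]
  apply add_le_add
  · refine sum_le_sum_of_subset_of_nonneg ?_ fun _ _ _ => abs_nonneg _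
    intro d hd
    rw [mem_filter, hs, mem_filter, mem_Ico] at hd
    rw [mem_Icc]
    omega
  · calc ∑ d ∈ s.filter (fun d => ¬ d ≤ D), |UU j (q * d) N| ≤
        ∑ d ∈ s.filter (fun d => ¬ d ≤ D), (X : ℝ) / (q * d : ℕ) * (1 + Real.log X) ^ 2 := by
          refine sum_le_sum fun d hd => ?_
          rw [mem_filter, hs, mem_filter, mem_Ico] at hd
          exact UU_triv j (q * d) N X hN
      _ ≤ _ := by
          refine sum_le_sum_of_subset_of_nonneg ?_ fun _ _ _ => by positivity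
          intro d hd
          rw [mem_filter, hs, mem_filter, mem_Ico] at hd
          rw [mem_filter, mem_Ioc]
          exact ⟨⟨by omega, by omega⟩, hd.1.2⟩

/-- the harmonic sum -/
lemma harm (X : ℕ) : ∑ k ∈ Icc 1 X, (1 / (k : ℝ)) ≤ 1 + Real.log X := by
  have h1 := harmonic_le_one_add_log X
  refine le_trans (le_of_eq ?_) h1
  rw [harmonic_eq_sum_Icc]
  push_cast
  exact sum_congr rfl fun k _ => one_div _

lemma harm_mult (X b : ℕ) (hb : 1 ≤ b) :
    ∑ k ∈ (Icc 1 X).filter (fun k => b ∣ k), (1 / (k : ℝ)) ≤ 1 / b * (1 + Real.log X) := by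
  have h1 : ∑ k ∈ (Icc 1 X).filter (fun k => b ∣ k), (1 / (k : ℝ)) ≤ ∑ m ∈ Icc 1 X, (1 / ((b * m : ℕ) : ℝ)) := by
    have h2 : (Icc 1 X).filter (fun k => b ∣ k) ⊆ (Icc 1 X).image (fun m => b * m) := by
      intro k hk
      rw [mem_filter, mem_Icc] at hk
      obtain ⟨m, rfl⟩ := hk.2
      rw [mem_image]
      refine ⟨m, ?_, rfl⟩
      rw [mem_Icc]
      refine ⟨?_, (Nat.le_mul_of_pos_left _ hb).trans hk.1.2⟩
      rcases Nat.eq_zero_or_pos m with h | h
      · subst h; omega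
      · exact h
    refine (sum_le_sum_of_subset_of_nonneg h2 fun _ _ _ => by positivity).trans ?_
    rw [sum_image]
    intro m1 _ m2 _ h
    exact Nat.eq_of_mul_eq_mul_left (by omega) h
  refine h1.trans ?_
  have h3 : ∑ m ∈ Icc 1 X, (1 / ((b * m : ℕ) : ℝ)) = 1 / b * ∑ m ∈ Icc 1 X, (1 / (m : ℝ)) := by
    rw [mul_sum]
    refine sum_congr rfl fun m _ => ?_
    push_cast
    rw [one_div_mul_one_div]
  rw [h3]
  exact mul_le_mul_of_nonneg_left (harm X) (by positivity)

/-- the square part and the squarefree part -/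
lemma parts (d : ℕ) (_hd : 1 ≤ d) : ∃ x : ℕ × ℕ, x.1 ^ 2 * x.2 = d ∧ Squarefree x.2 := by
  obtain ⟨a, b, h1, h2⟩ := Nat.sq_mul_squarefree d
  exact ⟨(b, a), h1, h2⟩

/-- the tail of the expansion, summed over the moduli -/
theorem tail_sum (D X : ℕ) (hD : 1 ≤ D) :
    ∑ q ∈ Icc 1 X, ∑ d ∈ (Ioc D X).filter (fun d => d.primeFactors ⊆ q.primeFactors),
      (1 / ((q * d : ℕ) : ℝ)) ≤ (1 + Real.log X) ^ 3 / √D := by
  classical
  have hL : 0 ≤ 1 + Real.log (X : ℝ) := by linarith [Real.log_natCast_nonneg X]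
  have hD0 : 0 < √(D : ℝ) := Real.sqrt_pos.2 (by exact_mod_cast hD)
  choose! f hf1 hf2 using parts
  -- exchange the sums
  have h1 : ∑ q ∈ Icc 1 X, ∑ d ∈ (Ioc D X).filter (fun d => d.primeFactors ⊆ q.primeFactors),
      (1 / ((q * d : ℕ) : ℝ)) = ∑ d ∈ Ioc D X, ∑ q ∈ (Icc 1 X).filter (fun q => d.primeFactors ⊆ q.primeFactors),
      (1 / ((q * d : ℕ) : ℝ)) := by
    simp_rw [sum_filter]
    rw [sum_comm]
  rw [h1]
  have h2 : ∀ d ∈ Ioc D X, ∑ q ∈ (Icc 1 X).filter (fun q => d.primeFactors ⊆ q.primeFactors),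
      (1 / ((q * d : ℕ) : ℝ)) ≤ (1 + Real.log X) / √D * (1 / ((f d).1 : ℝ) * (1 / ((f d).2 : ℝ))) := by
    intro d hd
    rw [mem_Ioc] at hd
    have hd1 : 1 ≤ d := by omega
    have e1 := hf1 d hd1
    have e2 := hf2 d hd1
    set a := (f d).1
    set b := (f d).2
    have ha : 1 ≤ a := by
      rcases Nat.eq_zero_or_pos a with h | h
      · rw [h] at e1; simp at e1; omega
      · exact h
    have hb : 1 ≤ b := by
      rcases Nat.eq_zero_or_pos b with h | h
      · rw [h] at e1; simp at e1; omega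
      · exact h
    have ha' : (1 : ℝ) ≤ a := by exact_mod_cast ha
    have hb' : (1 : ℝ) ≤ b := by exact_mod_cast hb
    have hd' : (d : ℝ) = a ^ 2 * b := by rw [← e1]; push_cast; ring
    have h3 : ∑ q ∈ (Icc 1 X).filter (fun q => d.primeFactors ⊆ q.primeFactors), (1 / (q : ℝ)) ≤
        1 / b * (1 + Real.log X) := by
      refine le_trans (sum_le_sum_of_subset_of_nonneg ?_ fun _ _ _ => by positivity) (harm_mult X b hb)
      intro q hq
      rw [mem_filter, mem_Icc] at hq ⊢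
      refine ⟨hq.1, ?_⟩
      have h4 : b.primeFactors ⊆ q.primeFactors := by
        refine subset_trans ?_ hq.2
        apply Nat.primeFactors_mono _ (by omega)
        rw [← e1]
        exact dvd_mul_left _ _
      rw [← Nat.prod_primeFactors_of_squarefree e2]
      exact (prod_dvd_prod_of_subset _ _ _ h4).trans (Nat.prod_primeFactors_dvd q)
    have h5 : ∑ q ∈ (Icc 1 X).filter (fun q => d.primeFactors ⊆ q.primeFactors), (1 / ((q * d : ℕ) : ℝ)) =
        1 / d * ∑ q ∈ (Icc 1 X).filter (fun q => d.primeFactors ⊆ q.primeFactors), (1 / (q : ℝ)) := by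
      rw [mul_sum]
      refine sum_congr rfl fun q _ => ?_
      push_cast
      rw [one_div_mul_one_div, mul_comm (q : ℝ)]
    rw [h5]
    have h6 : √(D : ℝ) ≤ a * b := by
      rw [Real.sqrt_le_left (by positivity)]
      calc (D : ℝ) ≤ d := by exact_mod_cast hd.1.le
        _ = a ^ 2 * b := hd'
        _ ≤ (a * b) ^ 2 := by nlinarith [mul_nonneg (sq_nonneg (a : ℝ)) (by linarith : (0 : ℝ) ≤ b)]
    calc 1 / (d : ℝ) * ∑ q ∈ (Icc 1 X).filter (fun q => d.primeFactors ⊆ q.primeFactors), (1 / (q : ℝ)) ≤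
          1 / (d : ℝ) * (1 / b * (1 + Real.log X)) := mul_le_mul_of_nonneg_left h3 (by positivity)
      _ = (1 + Real.log X) * (1 / (a * b) * (1 / a * (1 / b))) := by
          rw [hd']
          field_simp
      _ ≤ (1 + Real.log X) * (1 / √D * (1 / a * (1 / b))) := by
          apply mul_le_mul_of_nonneg_left _ hL
          apply mul_le_mul_of_nonneg_right _ (by positivity)
          exact one_div_le_one_div_of_le hD0 h6
      _ = _ := by ring
  refine (sum_le_sum h2).trans ?_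
  rw [← mul_sum]
  have h7 : ∑ d ∈ Ioc D X, (1 / ((f d).1 : ℝ) * (1 / ((f d).2 : ℝ))) ≤
      ∑ x ∈ Icc 1 X ×ˢ Icc 1 X, (1 / (x.1 : ℝ) * (1 / (x.2 : ℝ))) := by
    have hinj : Set.InjOn f (Ioc D X : Finset ℕ) := by
      intro d1 h1 d2 h2 h
      simp only [coe_Ioc, Set.mem_Ioc] at h1 h2
      rw [← hf1 d1 (by omega), ← hf1 d2 (by omega), h]
    rw [← sum_image (f := fun x : ℕ × ℕ => (1 / (x.1 : ℝ) * (1 / (x.2 : ℝ)))) hinj]
    refine sum_le_sum_of_subset_of_nonneg ?_ fun _ _ _ => by positivity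
    intro x hx
    rw [mem_image] at hx
    obtain ⟨d, hd, rfl⟩ := hx
    rw [mem_Ioc] at hd
    have e1 := hf1 d (by omega)
    have h8 : (f d).1 ∣ d := by
      have h10 : (f d).1 ∣ (f d).1 ^ 2 * (f d).2 := Dvd.dvd.mul_right (dvd_pow_self _ two_ne_zero) _
      rwa [e1] at h10
    have h9 : (f d).2 ∣ d := by
      have h10 : (f d).2 ∣ (f d).1 ^ 2 * (f d).2 := dvd_mul_left _ _
      rwa [e1] at h10
    rw [mem_product, mem_Icc, mem_Icc]
    exact ⟨⟨Nat.pos_of_dvd_of_pos h8 (by omega), (Nat.le_of_dvd (by omega) h8).trans hd.2⟩,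
      ⟨Nat.pos_of_dvd_of_pos h9 (by omega), (Nat.le_of_dvd (by omega) h9).trans hd.2⟩⟩
  have h8 : ∑ x ∈ Icc 1 X ×ˢ Icc 1 X, (1 / (x.1 : ℝ) * (1 / (x.2 : ℝ))) ≤ (1 + Real.log X) * (1 + Real.log X) := by
    rw [sum_product]
    simp_rw [← mul_sum]
    rw [← sum_mul]
    exact mul_le_mul (harm X) (harm X) (sum_nonneg fun _ _ => by positivity) hL
  calc (1 + Real.log X) / √D * ∑ d ∈ Ioc D X, (1 / ((f d).1 : ℝ) * (1 / ((f d).2 : ℝ))) ≤
      (1 + Real.log X) / √D * ((1 + Real.log X) * (1 + Real.log X)) :=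
        mul_le_mul_of_nonneg_left (h7.trans h8) (by positivity)
    _ = _ := by ring

/-- `∑ 1 / φ(q)` -/
theorem sum_tot (X : ℕ) : ∑ q ∈ Icc 1 X, (1 / (Nat.totient q : ℝ)) ≤ (1 + Real.log X) ^ 2 := by
  have hL : 0 ≤ 1 + Real.log (X : ℝ) := by linarith [Real.log_natCast_nonneg X]
  have h1 : ∀ q ∈ Icc 1 X, (1 / (Nat.totient q : ℝ)) ≤ ∑ x ∈ q.divisorsAntidiagonal, (1 / (x.1 : ℝ) * (1 / (x.2 : ℝ))) := by
    intro q hq
    rw [mem_Icc] at hq
    have h2 : ∑ x ∈ q.divisorsAntidiagonal, (1 / (x.1 : ℝ) * (1 / (x.2 : ℝ))) = (q.divisors.card : ℝ) * (1 / q) := by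
      rw [Nat.sum_divisorsAntidiagonal (fun a b => 1 / (a : ℝ) * (1 / (b : ℝ))), ← nsmul_eq_mul, ← sum_const]
      refine sum_congr rfl fun d hd => ?_
      have hd' := Nat.dvd_of_mem_divisors hd
      rw [one_div_mul_one_div, ← Nat.cast_mul, Nat.mul_div_cancel' hd']
    rw [h2]
    have h3 : q ≤ q.divisors.card * q.totient := by
      calc q = ∑ d ∈ q.divisors, d.totient := (Nat.sum_totient q).symm
        _ ≤ ∑ d ∈ q.divisors, q.totient := by
            refine sum_le_sum fun d hd => ?_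
            exact Nat.le_of_dvd (Nat.totient_pos.2 (by omega)) (Nat.totient_dvd_of_dvd (Nat.dvd_of_mem_divisors hd))
        _ = _ := by rw [sum_const, smul_eq_mul]
    have h4 : (0 : ℝ) < Nat.totient q := by exact_mod_cast Nat.totient_pos.2 (by omega)
    have h5 : (0 : ℝ) < q := by exact_mod_cast hq.1
    rw [mul_one_div, div_le_div_iff₀ h4 h5, one_mul]
    exact_mod_cast h3
  refine (sum_le_sum h1).trans ?_
  rw [sum_sigma']
  have h2 : ∑ x ∈ (Icc 1 X).sigma (fun q => q.divisorsAntidiagonal), (1 / (x.2.1 : ℝ) * (1 / (x.2.2 : ℝ))) ≤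
      ∑ y ∈ Icc 1 X ×ˢ Icc 1 X, (1 / (y.1 : ℝ) * (1 / (y.2 : ℝ))) := by
    have hinj : Set.InjOn (fun x : (Σ _ : ℕ, ℕ × ℕ) => x.2) ((Icc 1 X).sigma (fun q => q.divisorsAntidiagonal) : Finset _) := by
      intro x hx y hy h
      simp only [coe_sigma, Set.mem_sigma_iff, mem_coe, Nat.mem_divisorsAntidiagonal] at hx hy
      obtain ⟨q1, x1⟩ := x
      obtain ⟨q2, x2⟩ := y
      simp only at h hx hy
      subst h
      have : q1 = q2 := by rw [← hx.2.1, ← hy.2.1]
      subst this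
      rfl
    rw [← sum_image (f := fun y : ℕ × ℕ => (1 / (y.1 : ℝ) * (1 / (y.2 : ℝ)))) hinj]
    refine sum_le_sum_of_subset_of_nonneg ?_ fun _ _ _ => by positivity
    intro y hy
    rw [mem_image] at hy
    obtain ⟨x, hx, rfl⟩ := hy
    rw [mem_sigma, mem_Icc, Nat.mem_divisorsAntidiagonal] at hx
    obtain ⟨⟨h3, h4⟩, h5, h6⟩ := hx
    have h7 : x.2.1 ∣ x.1 := ⟨_, h5.symm⟩
    have h8 : x.2.2 ∣ x.1 := ⟨x.2.1, by rw [mul_comm]; exact h5.symm⟩
    rw [mem_product, mem_Icc, mem_Icc]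
    exact ⟨⟨Nat.pos_of_dvd_of_pos h7 (by omega), (Nat.le_of_dvd (by omega) h7).trans h4⟩,
      ⟨Nat.pos_of_dvd_of_pos h8 (by omega), (Nat.le_of_dvd (by omega) h8).trans h4⟩⟩
  refine h2.trans ?_
  rw [sum_product]
  simp_rw [← mul_sum]
  rw [← sum_mul, pow_two]
  exact mul_le_mul (harm X) (harm X) (sum_nonneg fun _ _ => by positivity) hL

end Pool.Agent.Q236.EH
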