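import Mathlib
import Pool.Agent.Q236.EH.Dec

/-!
# The second moment of the discrepancy
-/

set_option autoImplicit false

namespace Pool.Agent.Q236.EH

open Finset Filter Pool.Agent.H807R2.Dav Pool.Agent.H373R2.T7

/-- the discrepancy -/
noncomputable def DD (j : Bool) (N : ℕ) (θ : ℝ) : ℝ :=
  ∑ q ∈ (Icc 1 N).filter (fun q : ℕ => (q : ℝ) ≤ (N : ℝ) ^ θ ∧ Nat.Coprime q N),
    |∑ n ∈ (Ico 1 N).filter (fun n => n ≡ N [MOD q]), Lam n * (muR (N - n) * w j (N - n)) -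
      1 / (Nat.totient q : ℝ) * ∑ n ∈ Ico 1 N, Lam n * (muR (N - n) * w j (N - n))|

lemma DD_nonneg (j : Bool) (N : ℕ) (θ : ℝ) : 0 ≤ DD j N θ := sum_nonneg fun _ _ => abs_nonneg _

lemma DD_mono (j : Bool) (N : ℕ) {θ θ' : ℝ} (h : θ ≤ θ') : DD j N θ ≤ DD j N θ' := by
  unfold DD
  refine sum_le_sum_of_subset_of_nonneg ?_ fun _ _ _ => abs_nonneg _
  intro q hq
  rw [mem_filter, mem_Icc] at hq ⊢
  refine ⟨hq.1, hq.2.1.trans ?_, hq.2.2⟩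
  have hN : (1 : ℝ) ≤ N := by exact_mod_cast hq.1.1.trans hq.1.2
  exact Real.rpow_le_rpow_of_exponent_le hN h

lemma full_eq (j : Bool) (N : ℕ) : ∑ n ∈ Ico 1 N, Lam n * (muR (N - n) * w j (N - n)) = UU j 1 N := by
  rw [← TT_one]
  unfold TT
  rw [filter_true_of_mem]
  intro n _
  exact Nat.modEq_one

/-- the discrepancy is bounded by the sums over the multiples of `q d` -/
theorem DD_le (j : Bool) (N X Q D : ℕ) (θ : ℝ) (hθ : 0 ≤ θ) (hN : N ≤ X) (hD : 1 ≤ D)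
    (hQ : (X : ℝ) ^ θ < Q + 1) (hQX : Q ≤ X) :
    DD j N θ ≤ ∑ x ∈ Icc 1 Q ×ˢ Icc 1 D, |UU j (x.1 * x.2) N| + X * (1 + Real.log X) ^ 5 / √D +
      (1 + Real.log X) ^ 2 * |UU j 1 N| := by
  have hL : 0 ≤ 1 + Real.log (X : ℝ) := by linarith [Real.log_natCast_nonneg X]
  unfold DD
  rw [full_eq]
  have h1 : ∀ q ∈ (Icc 1 N).filter (fun q : ℕ => (q : ℝ) ≤ (N : ℝ) ^ θ ∧ Nat.Coprime q N),
      |∑ n ∈ (Ico 1 N).filter (fun n => n ≡ N [MOD q]), Lam n * (muR (N - n) * w j (N - n)) -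
      1 / (Nat.totient q : ℝ) * UU j 1 N| ≤ |TT j q N| + 1 / (Nat.totient q : ℝ) * |UU j 1 N| := by
    intro q _
    refine (abs_sub _ _).trans ?_
    rw [abs_mul, abs_of_nonneg (by positivity : (0 : ℝ) ≤ 1 / (Nat.totient q : ℝ))]
    rfl
  refine (sum_le_sum h1).trans ?_
  have h2 : (Icc 1 N).filter (fun q : ℕ => (q : ℝ) ≤ (N : ℝ) ^ θ ∧ Nat.Coprime q N) ⊆ Icc 1 Q := by
    intro q hq
    rw [mem_filter, mem_Icc] at hq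
    rw [mem_Icc]
    refine ⟨hq.1.1, ?_⟩
    have h3 : (q : ℝ) < Q + 1 := by
      calc (q : ℝ) ≤ (N : ℝ) ^ θ := hq.2.1
        _ ≤ (X : ℝ) ^ θ := Real.rpow_le_rpow (by positivity) (by exact_mod_cast hN) hθ
        _ < Q + 1 := hQ
    have h4 : q < Q + 1 := by exact_mod_cast h3
    omega
  refine (sum_le_sum_of_subset_of_nonneg h2 fun _ _ _ => by positivity).trans ?_
  rw [sum_add_distrib, ← sum_mul]
  have h3 : ∑ q ∈ Icc 1 Q, 1 / (Nat.totient q : ℝ) ≤ (1 + Real.log X) ^ 2 := by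
    refine le_trans (sum_le_sum_of_subset_of_nonneg ?_ fun _ _ _ => by positivity) (sum_tot X)
    exact Icc_subset_Icc_right hQX
  have h4 : ∑ q ∈ Icc 1 Q, |TT j q N| ≤ ∑ x ∈ Icc 1 Q ×ˢ Icc 1 D, |UU j (x.1 * x.2) N| +
      X * (1 + Real.log X) ^ 5 / √D := by
    refine (sum_le_sum (fun q hq => TT_abs j q N D X (mem_Icc.1 hq).1 hN)).trans ?_
    rw [sum_add_distrib, sum_product]
    apply add_le_add le_rfl
    have h5 : ∑ q ∈ Icc 1 Q, ∑ d ∈ (Ioc D X).filter (fun d => d.primeFactors ⊆ q.primeFactors),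
        (X : ℝ) / (q * d : ℕ) * (1 + Real.log X) ^ 2 ≤
        (X * (1 + Real.log X) ^ 2) * ∑ q ∈ Icc 1 X, ∑ d ∈ (Ioc D X).filter (fun d => d.primeFactors ⊆ q.primeFactors),
        (1 / ((q * d : ℕ) : ℝ)) := by
      rw [mul_sum]
      refine le_trans (le_of_eq ?_) (sum_le_sum_of_subset_of_nonneg (Icc_subset_Icc_right hQX) fun _ _ _ => by positivity)
      refine sum_congr rfl fun q _ => ?_
      rw [mul_sum]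
      refine sum_congr rfl fun d _ => ?_
      ring
    refine h5.trans ?_
    calc (X * (1 + Real.log X) ^ 2) * ∑ q ∈ Icc 1 X, ∑ d ∈ (Ioc D X).filter (fun d => d.primeFactors ⊆ q.primeFactors),
        (1 / ((q * d : ℕ) : ℝ)) ≤ (X * (1 + Real.log X) ^ 2) * ((1 + Real.log X) ^ 3 / √D) :=
          mul_le_mul_of_nonneg_left (tail_sum D X hD) (by positivity)
      _ = _ := by ring
  exact add_le_add h4 (mul_le_mul_of_nonneg_right h3 (abs_nonneg _))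

/-- the second moment, with explicit parameters -/
theorem second_explicit (j : Bool) (X Q D U N1 : ℕ) (θ ℓ : ℝ) (hθ : 0 ≤ θ) (hX : 1 ≤ X) (hD : 1 ≤ D)
    (hQ : (X : ℝ) ^ θ < Q + 1) (hQX : Q ≤ X) (hDX : D ≤ X) (hℓ : 0 < ℓ)
    (hN1 : ∀ Y : ℕ, N1 ≤ Y → ∀ y : ℕ, y ≤ Y → ∀ α : ℝ,
      ‖∑ n ∈ Icc 1 y, ((muR n : ℝ) : ℂ) * ee ((n : ℝ) * α)‖ ≤ Y / Real.log Y ^ U)
    (hQD : ∀ r : ℕ, 1 ≤ r → r ≤ Q * D → r ≤ X ∧ N1 ≤ X / r ∧ ℓ ≤ Real.log ((X / r : ℕ) : ℝ)) (hQ1 : 1 ≤ Q) :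
    ∑ N ∈ Icc 1 X, DD j N θ ^ 2 ≤
      3 * (X ^ 3 * (8 * (1 + Real.log X) ^ 8 / ℓ ^ (2 * U) + (1 + Real.log X) ^ 10 / D)) := by
  have hL : 1 ≤ 1 + Real.log (X : ℝ) := by linarith [Real.log_natCast_nonneg X]
  have hX0 : (0 : ℝ) < X := by exact_mod_cast hX
  have hD0 : (0 : ℝ) < D := by exact_mod_cast hD
  set L := 1 + Real.log (X : ℝ) with hLdef
  have hUU : ∀ r : ℕ, 1 ≤ r → r ≤ Q * D → ∑ N ∈ Icc 1 X, UU j r N ^ 2 ≤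
      4 * X ^ 3 * L ^ 4 / ℓ ^ (2 * U) * (1 / (r : ℝ) ^ 2) := by
    intro r hr hrQD
    obtain ⟨h1, h2, h3⟩ := hQD r hr hrQD
    have hr0 : (0 : ℝ) < r := by exact_mod_cast hr
    have hB : ∀ y ≤ X / r, ∀ α : ℝ, ‖∑ n ∈ Icc 1 y, ((muR n : ℝ) : ℂ) * ee ((n : ℝ) * α)‖ ≤
        ((X : ℝ) / r) / ℓ ^ U := by
      intro y hy α
      refine (hN1 (X / r) h2 y hy α).trans ?_
      have h4 : ((X / r : ℕ) : ℝ) ≤ (X : ℝ) / r := Nat.cast_div_le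
      have h5 : ℓ ^ U ≤ Real.log ((X / r : ℕ) : ℝ) ^ U := pow_le_pow_left₀ hℓ.le h3 U
      exact div_le_div₀ (by positivity) h4 (by positivity) h5
    refine (UU_sq j r X hr h1 _ hB).trans (le_of_eq ?_)
    rw [← hLdef]
    field_simp
    ring
  have hharm : ∑ x ∈ Icc 1 Q ×ˢ Icc 1 D, (1 / ((x.1 * x.2 : ℕ) : ℝ)) ≤ L ^ 2 := by
    have h1 : ∑ x ∈ Icc 1 Q ×ˢ Icc 1 D, (1 / ((x.1 * x.2 : ℕ) : ℝ)) =
        (∑ q ∈ Icc 1 Q, 1 / (q : ℝ)) * ∑ d ∈ Icc 1 D, 1 / (d : ℝ) := by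
      rw [sum_mul_sum, ← sum_product']
      refine sum_congr rfl fun x _ => ?_
      push_cast
      rw [one_div_mul_one_div]
    rw [h1, pow_two]
    have h2 : ∀ Z : ℕ, Z ≤ X → ∑ q ∈ Icc 1 Z, 1 / (q : ℝ) ≤ L := fun Z hZ =>
      le_trans (sum_le_sum_of_subset_of_nonneg (Icc_subset_Icc_right hZ) fun _ _ _ => by positivity) (harm X)
    exact mul_le_mul (h2 Q hQX) (h2 D hDX) (sum_nonneg fun _ _ => by positivity) (by linarith)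
  -- the first sum
  have hA1 : ∑ N ∈ Icc 1 X, (∑ x ∈ Icc 1 Q ×ˢ Icc 1 D, |UU j (x.1 * x.2) N|) ^ 2 ≤
      4 * X ^ 3 * L ^ 8 / ℓ ^ (2 * U) := by
    have h1 : ∀ N ∈ Icc 1 X, (∑ x ∈ Icc 1 Q ×ˢ Icc 1 D, |UU j (x.1 * x.2) N|) ^ 2 ≤
        L ^ 2 * ∑ x ∈ Icc 1 Q ×ˢ Icc 1 D, ((x.1 * x.2 : ℕ) : ℝ) * UU j (x.1 * x.2) N ^ 2 := by
      intro N _
      refine (sum_sq_le_sum_mul_sum_of_sq_le_mul (Icc 1 Q ×ˢ Icc 1 D)
        (f := fun x : ℕ × ℕ => 1 / ((x.1 * x.2 : ℕ) : ℝ))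
        (g := fun x : ℕ × ℕ => ((x.1 * x.2 : ℕ) : ℝ) * UU j (x.1 * x.2) N ^ 2)
        (fun x _ => by positivity) (fun x _ => by positivity) (fun x hx => ?_)).trans ?_
      · rw [mem_product, mem_Icc, mem_Icc] at hx
        have h2 : ((x.1 * x.2 : ℕ) : ℝ) ≠ 0 := by
          have : 0 < x.1 * x.2 := Nat.mul_pos (by omega) (by omega)
          exact_mod_cast this.ne'
        rw [sq_abs]
        apply le_of_eq
        field_simp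
      · exact mul_le_mul_of_nonneg_right hharm (sum_nonneg fun _ _ => by positivity)
    refine (sum_le_sum h1).trans ?_
    rw [← mul_sum, sum_comm]
    have h2 : ∀ x ∈ Icc 1 Q ×ˢ Icc 1 D, ∑ N ∈ Icc 1 X, ((x.1 * x.2 : ℕ) : ℝ) * UU j (x.1 * x.2) N ^ 2 ≤
        4 * X ^ 3 * L ^ 4 / ℓ ^ (2 * U) * (1 / ((x.1 * x.2 : ℕ) : ℝ)) := by
      intro x hx
      rw [mem_product, mem_Icc, mem_Icc] at hx
      have h3 : 1 ≤ x.1 * x.2 := Nat.mul_pos (by omega) (by omega)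
      have h4 : (0 : ℝ) < ((x.1 * x.2 : ℕ) : ℝ) := by exact_mod_cast h3
      rw [← mul_sum]
      calc ((x.1 * x.2 : ℕ) : ℝ) * ∑ N ∈ Icc 1 X, UU j (x.1 * x.2) N ^ 2 ≤ ((x.1 * x.2 : ℕ) : ℝ) *
            (4 * X ^ 3 * L ^ 4 / ℓ ^ (2 * U) * (1 / ((x.1 * x.2 : ℕ) : ℝ) ^ 2)) :=
            mul_le_mul_of_nonneg_left (hUU _ h3 (Nat.mul_le_mul hx.1.2 hx.2.2)) h4.le
        _ = _ := by field_simp
    calc L ^ 2 * ∑ x ∈ Icc 1 Q ×ˢ Icc 1 D, ∑ N ∈ Icc 1 X, ((x.1 * x.2 : ℕ) : ℝ) * UU j (x.1 * x.2) N ^ 2 ≤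
          L ^ 2 * ∑ x ∈ Icc 1 Q ×ˢ Icc 1 D, 4 * X ^ 3 * L ^ 4 / ℓ ^ (2 * U) * (1 / ((x.1 * x.2 : ℕ) : ℝ)) :=
          mul_le_mul_of_nonneg_left (sum_le_sum h2) (by positivity)
      _ = L ^ 2 * (4 * X ^ 3 * L ^ 4 / ℓ ^ (2 * U) * ∑ x ∈ Icc 1 Q ×ˢ Icc 1 D, (1 / ((x.1 * x.2 : ℕ) : ℝ))) := by
          rw [mul_sum (Icc 1 Q ×ˢ Icc 1 D) _ (4 * X ^ 3 * L ^ 4 / ℓ ^ (2 * U))]
      _ ≤ L ^ 2 * (4 * X ^ 3 * L ^ 4 / ℓ ^ (2 * U) * L ^ 2) :=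
          mul_le_mul_of_nonneg_left (mul_le_mul_of_nonneg_left hharm (by positivity)) (by positivity)
      _ = _ := by ring
  have hA3 : ∑ N ∈ Icc 1 X, (L ^ 2 * |UU j 1 N|) ^ 2 ≤ 4 * X ^ 3 * L ^ 8 / ℓ ^ (2 * U) := by
    have h1 := hUU 1 le_rfl (Nat.mul_pos hQ1 hD)
    calc ∑ N ∈ Icc 1 X, (L ^ 2 * |UU j 1 N|) ^ 2 = L ^ 4 * ∑ N ∈ Icc 1 X, UU j 1 N ^ 2 := by
          rw [mul_sum]
          refine sum_congr rfl fun N _ => ?_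
          rw [mul_pow, sq_abs]
          ring
      _ ≤ L ^ 4 * (4 * X ^ 3 * L ^ 4 / ℓ ^ (2 * U) * (1 / ((1 : ℕ) : ℝ) ^ 2)) :=
          mul_le_mul_of_nonneg_left h1 (by positivity)
      _ = _ := by push_cast; ring
  have hA2 : ∑ N ∈ Icc 1 X, ((X : ℝ) * L ^ 5 / √D) ^ 2 = X ^ 3 * L ^ 10 / D := by
    rw [sum_const, Nat.card_Icc, Nat.add_sub_cancel, nsmul_eq_mul, div_pow, Real.sq_sqrt hD0.le]
    ring
  have h5 : ∀ N ∈ Icc 1 X, DD j N θ ^ 2 ≤ 3 * ((∑ x ∈ Icc 1 Q ×ˢ Icc 1 D, |UU j (x.1 * x.2) N|) ^ 2 +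
      ((X : ℝ) * L ^ 5 / √D) ^ 2 + (L ^ 2 * |UU j 1 N|) ^ 2) := by
    intro N hN
    have h6 := DD_le j N X Q D θ hθ (mem_Icc.1 hN).2 hD hQ hQX
    have h7 : DD j N θ ^ 2 ≤ (∑ x ∈ Icc 1 Q ×ˢ Icc 1 D, |UU j (x.1 * x.2) N| + (X : ℝ) * L ^ 5 / √D +
        L ^ 2 * |UU j 1 N|) ^ 2 := pow_le_pow_left₀ (DD_nonneg j N θ) h6 2
    refine h7.trans ?_
    nlinarith [sq_nonneg (∑ x ∈ Icc 1 Q ×ˢ Icc 1 D, |UU j (x.1 * x.2) N| - (X : ℝ) * L ^ 5 / √D),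
      sq_nonneg (∑ x ∈ Icc 1 Q ×ˢ Icc 1 D, |UU j (x.1 * x.2) N| - L ^ 2 * |UU j 1 N|),
      sq_nonneg ((X : ℝ) * L ^ 5 / √D - L ^ 2 * |UU j 1 N|)]
  refine (sum_le_sum h5).trans ?_
  rw [← mul_sum, sum_add_distrib, sum_add_distrib, hA2]
  have h8 : (X : ℝ) ^ 3 * (8 * L ^ 8 / ℓ ^ (2 * U) + L ^ 10 / D) =
      4 * X ^ 3 * L ^ 8 / ℓ ^ (2 * U) + X ^ 3 * L ^ 10 / D + 4 * X ^ 3 * L ^ 8 / ℓ ^ (2 * U) := by ring
  rw [h8]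
  linarith

end Pool.Agent.Q236.EH
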