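import Mathlib
import Pool.Agent.Q236.EH.Main

/-!
# The exceptional set
-/

set_option autoImplicit false

namespace Pool.Agent.Q236.EH

open Finset Filter Pool.Agent.H807R2.Dav Pool.Agent.H373R2.T7

lemma log_pow_le (k : ℕ) (δ : ℝ) (hδ : 0 < δ) (c : ℝ) :
    ∀ᶠ X : ℕ in atTop, c * Real.log X ^ k ≤ (X : ℝ) ^ δ := by
  have h1 := (isLittleO_log_rpow_rpow_atTop (k : ℝ) hδ).def
    (show (0 : ℝ) < 1 / (|c| + 1) by positivity)
  have h2 := tendsto_natCast_atTop_atTop.eventually h1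
  filter_upwards [h2, eventually_ge_atTop 2] with X hX hX2
  have hL : 0 < Real.log (X : ℝ) := Real.log_pos (by exact_mod_cast hX2)
  rw [Real.rpow_natCast, Real.norm_of_nonneg (by positivity), Real.norm_of_nonneg (by positivity)] at hX
  calc c * Real.log (X : ℝ) ^ k ≤ (|c| + 1) * Real.log (X : ℝ) ^ k := by
        apply mul_le_mul_of_nonneg_right _ (by positivity)
        linarith [le_abs_self c]
    _ ≤ (|c| + 1) * (1 / (|c| + 1) * (X : ℝ) ^ δ) := mul_le_mul_of_nonneg_left hX (by positivity)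
    _ = _ := by field_simp

lemma log_ge (c : ℝ) : ∀ᶠ X : ℕ in atTop, c ≤ Real.log X :=
  (Real.tendsto_log_atTop.comp tendsto_natCast_atTop_atTop).eventually (eventually_ge_atTop c)

/-- the second moment -/
theorem second (θ : ℝ) (h0 : 0 < θ) (h1 : θ < 1) (V : ℕ) :
    ∀ᶠ X : ℕ in atTop, ∀ j : Bool, ∑ N ∈ Icc 1 X, DD j N θ ^ 2 ≤ X ^ 3 / Real.log X ^ V := by
  set δ : ℝ := (1 - θ) / 2 with hδ
  have hδ0 : 0 < δ := by rw [hδ]; linarith
  obtain ⟨U, hU⟩ : ∃ U : ℕ, U = V + 5 := ⟨_, rfl⟩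
  obtain ⟨N1, hN1⟩ := supmax U
  have e1 := log_pow_le (10 + V) δ hδ0 (2 * (3 * 2 * 2 ^ 10))
  have e2 := log_ge (48 * 2 ^ 8 * (2 / δ) ^ (2 * U))
  have e3 : ∀ᶠ X : ℕ in atTop, (N1 + 2 : ℝ) ≤ (X : ℝ) ^ (δ / 2) :=
    ((tendsto_rpow_atTop (half_pos hδ0)).comp tendsto_natCast_atTop_atTop).eventually (eventually_ge_atTop _)
  filter_upwards [e1, e2, e3, log_ge 1, eventually_ge_atTop 3] with X a1 a2 a3 a4 a5
  intro j
  have hX1 : (1 : ℝ) ≤ X := by exact_mod_cast (by omega : 1 ≤ X)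
  have hX0 : (0 : ℝ) < X := by linarith
  set lg := Real.log (X : ℝ) with hlg
  have hlg0 : 0 < lg := by linarith
  set Q : ℕ := ⌊(X : ℝ) ^ θ⌋₊ with hQ
  set D : ℕ := ⌊(X : ℝ) ^ δ⌋₊ with hD
  have hXδ : 1 ≤ (X : ℝ) ^ δ := Real.one_le_rpow hX1 hδ0.le
  have hXθ : 1 ≤ (X : ℝ) ^ θ := Real.one_le_rpow hX1 h0.le
  have hD1 : 1 ≤ D := (Nat.one_le_floor_iff _).2 hXδ
  have hQ1 : 1 ≤ Q := (Nat.one_le_floor_iff _).2 hXθ
  have hδ1 : δ ≤ 1 := by rw [hδ]; linarith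
  have hQX : Q ≤ X := by
    apply Nat.floor_le_of_le
    calc (X : ℝ) ^ θ ≤ (X : ℝ) ^ (1 : ℝ) := Real.rpow_le_rpow_of_exponent_le hX1 h1.le
      _ = X := Real.rpow_one _
  have hDX : D ≤ X := by
    apply Nat.floor_le_of_le
    calc (X : ℝ) ^ δ ≤ (X : ℝ) ^ (1 : ℝ) := Real.rpow_le_rpow_of_exponent_le hX1 hδ1
      _ = X := Real.rpow_one _
  have hD2 : (X : ℝ) ^ δ / 2 ≤ D := by
    have h2 := Nat.lt_floor_add_one ((X : ℝ) ^ δ)
    rw [← hD] at h2
    have h3 : (1 : ℝ) ≤ D := by exact_mod_cast hD1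
    linarith
  have hℓ : 0 < δ / 2 * lg := by positivity
  have hQD : ∀ r : ℕ, 1 ≤ r → r ≤ Q * D → r ≤ X ∧ N1 ≤ X / r ∧ δ / 2 * lg ≤ Real.log ((X / r : ℕ) : ℝ) := by
    intro r hr hrQD
    have hr0 : (0 : ℝ) < r := by exact_mod_cast hr
    have h2 : (r : ℝ) ≤ (X : ℝ) ^ (1 - δ) := by
      calc (r : ℝ) ≤ (Q : ℝ) * D := by exact_mod_cast hrQD
        _ ≤ (X : ℝ) ^ θ * (X : ℝ) ^ δ := mul_le_mul (Nat.floor_le (by positivity))
            (Nat.floor_le (by positivity)) (by positivity) (by positivity)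
        _ = (X : ℝ) ^ (1 - δ) := by
            rw [← Real.rpow_add hX0]
            congr 1
            rw [hδ]; ring
    have h3 : (X : ℝ) ^ δ ≤ X / r := by
      rw [le_div_iff₀ hr0]
      calc (X : ℝ) ^ δ * r ≤ (X : ℝ) ^ δ * (X : ℝ) ^ (1 - δ) := mul_le_mul_of_nonneg_left h2 (by positivity)
        _ = X := by rw [← Real.rpow_add hX0]; norm_num
    have h4 : (X : ℝ) ^ (δ / 2) ≤ ((X / r : ℕ) : ℝ) := by
      have h5 : (X : ℝ) / r < ((X / r : ℕ) : ℝ) + 1 := by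
        rw [div_lt_iff₀ hr0]
        have h6 := Nat.lt_div_mul_add hr (a := X)
        have h7 : (X : ℝ) < ((X / r : ℕ) : ℝ) * r + r := by exact_mod_cast h6
        linarith
      have h6 : (X : ℝ) ^ δ = (X : ℝ) ^ (δ / 2) * (X : ℝ) ^ (δ / 2) := by
        rw [← Real.rpow_add hX0]; congr 1; ring
      have h7 : (2 : ℝ) ≤ (X : ℝ) ^ (δ / 2) := by
        have : (0 : ℝ) ≤ N1 := Nat.cast_nonneg _
        linarith
      nlinarith
    refine ⟨?_, ?_, ?_⟩
    · have h5 : (r : ℝ) ≤ X := by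
        calc (r : ℝ) ≤ (X : ℝ) ^ (1 - δ) := h2
          _ ≤ (X : ℝ) ^ (1 : ℝ) := Real.rpow_le_rpow_of_exponent_le hX1 (by linarith)
          _ = X := Real.rpow_one _
      exact_mod_cast h5
    · have h5 : (N1 : ℝ) ≤ ((X / r : ℕ) : ℝ) := by linarith
      exact_mod_cast h5
    · calc δ / 2 * lg = Real.log ((X : ℝ) ^ (δ / 2)) := (Real.log_rpow hX0 _).symm
        _ ≤ Real.log ((X / r : ℕ) : ℝ) := Real.log_le_log (by positivity) h4
  refine (second_explicit j X Q D U N1 θ (δ / 2 * lg) h0.le (by omega) hD1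
    (Nat.lt_floor_add_one _) hQX hDX hℓ hN1 hQD hQ1).trans ?_
  rw [← hlg]
  have hL2 : 1 + lg ≤ 2 * lg := by linarith
  have hL8 : (1 + lg) ^ 8 ≤ 2 ^ 8 * lg ^ 8 := by
    rw [← mul_pow]; exact pow_le_pow_left₀ (by linarith) hL2 8
  have hL10 : (1 + lg) ^ 10 ≤ 2 ^ 10 * lg ^ 10 := by
    rw [← mul_pow]; exact pow_le_pow_left₀ (by linarith) hL2 10
  have b1 : 8 * (1 + lg) ^ 8 / (δ / 2 * lg) ^ (2 * U) ≤ (1 / 6) / lg ^ V := by
    rw [div_le_div_iff₀ (by positivity) (by positivity)]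
    have h2 : lg ^ (8 + V + 1) ≤ lg ^ (2 * U) := pow_le_pow_right₀ a4 (by omega)
    have h3 : (48 * 2 ^ 8) * (lg ^ (8 + V)) ≤ (δ / 2) ^ (2 * U) * lg ^ (8 + V + 1) := by
      have h4 : (2 / δ) ^ (2 * U) * (δ / 2) ^ (2 * U) = 1 := by
        rw [← mul_pow]
        have : 2 / δ * (δ / 2) = 1 := by field_simp
        rw [this, one_pow]
      have h5 : (48 * 2 ^ 8 : ℝ) ≤ (δ / 2) ^ (2 * U) * lg := by
        calc (48 * 2 ^ 8 : ℝ) = (δ / 2) ^ (2 * U) * (48 * 2 ^ 8 * (2 / δ) ^ (2 * U)) := by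
              linear_combination (-(48 * 2 ^ 8 : ℝ)) * h4
          _ ≤ _ := mul_le_mul_of_nonneg_left a2 (by positivity)
      calc (48 * 2 ^ 8) * (lg ^ (8 + V)) ≤ ((δ / 2) ^ (2 * U) * lg) * lg ^ (8 + V) :=
            mul_le_mul_of_nonneg_right h5 (by positivity)
        _ = _ := by ring
    calc 8 * (1 + lg) ^ 8 * lg ^ V ≤ 8 * (2 ^ 8 * lg ^ 8) * lg ^ V := by
          apply mul_le_mul_of_nonneg_right _ (by positivity)
          linarith
      _ = (1 / 6) * ((48 * 2 ^ 8) * (lg ^ (8 + V))) := by ring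
      _ ≤ (1 / 6) * ((δ / 2) ^ (2 * U) * lg ^ (8 + V + 1)) := mul_le_mul_of_nonneg_left h3 (by norm_num)
      _ ≤ (1 / 6) * ((δ / 2) ^ (2 * U) * lg ^ (2 * U)) :=
          mul_le_mul_of_nonneg_left (mul_le_mul_of_nonneg_left h2 (by positivity)) (by norm_num)
      _ = _ := by rw [mul_pow]
  have b2 : (1 + lg) ^ 10 / D ≤ (1 / 6) / lg ^ V := by
    have hD0 : (0 : ℝ) < D := by exact_mod_cast hD1
    rw [div_le_div_iff₀ hD0 (by positivity)]
    calc (1 + lg) ^ 10 * lg ^ V ≤ (2 ^ 10 * lg ^ 10) * lg ^ V :=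
          mul_le_mul_of_nonneg_right hL10 (by positivity)
      _ = (1 / 12) * (2 * (3 * 2 * 2 ^ 10) * lg ^ (10 + V)) := by ring
      _ ≤ (1 / 12) * (X : ℝ) ^ δ := mul_le_mul_of_nonneg_left a1 (by norm_num)
      _ ≤ 1 / 6 * D := by linarith
  calc 3 * ((X : ℝ) ^ 3 * (8 * (1 + lg) ^ 8 / (δ / 2 * lg) ^ (2 * U) + (1 + lg) ^ 10 / D)) ≤
        3 * ((X : ℝ) ^ 3 * ((1 / 6) / lg ^ V + (1 / 6) / lg ^ V)) := by
        apply mul_le_mul_of_nonneg_left _ (by norm_num)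
        exact mul_le_mul_of_nonneg_left (add_le_add b1 b2) (by positivity)
    _ = X ^ 3 / lg ^ V := by ring

/-- the number of exceptions -/
theorem count (θ : ℝ) (h0 : 0 < θ) (h1 : θ < 1) (A B : ℕ) :
    ∀ᶠ X : ℕ in atTop, (((Icc 1 X).filter (fun N : ℕ => ∃ j : Bool,
      (N : ℝ) / Real.log N ^ A < DD j N θ)).card : ℝ) ≤ X / Real.log X ^ B := by
  classical
  obtain ⟨K, hK⟩ : ∃ K : ℕ, K = B + 1 := ⟨_, rfl⟩
  filter_upwards [second θ h0 h1 (2 * (A + K) + K), log_ge 3, log_pow_le K 1 one_pos 3, eventually_ge_atTop 3]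
    with X a1 a2 a3 a4
  have hX1 : (1 : ℝ) ≤ X := by exact_mod_cast (by omega : 1 ≤ X)
  have hX0 : (0 : ℝ) < X := by linarith
  set lg := Real.log (X : ℝ) with hlg
  have hlg0 : 0 < lg := by linarith
  rw [Real.rpow_one] at a3
  have h2 : ∀ j : Bool, (((Icc 1 X).filter (fun N : ℕ => (X : ℝ) / lg ^ K < N ∧
      (N : ℝ) / Real.log N ^ A < DD j N θ)).card : ℝ) ≤ X / lg ^ K := by
    intro j
    set T := (Icc 1 X).filter (fun N : ℕ => (X : ℝ) / lg ^ K < N ∧ (N : ℝ) / Real.log N ^ A < DD j N θ) with hT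
    have h3 : ∀ N ∈ T, (X : ℝ) ^ 2 / lg ^ (2 * (A + K)) ≤ DD j N θ ^ 2 := by
      intro N hN
      rw [hT, mem_filter, mem_Icc] at hN
      obtain ⟨⟨hN1, hN2⟩, hN3, hN4⟩ := hN
      have hXK : 3 ≤ (X : ℝ) / lg ^ K := by
        rw [le_div_iff₀ (by positivity)]
        exact a3
      have hN0 : (1 : ℝ) < N := by linarith
      have hlN : 0 < Real.log (N : ℝ) := Real.log_pos hN0
      have hlN2 : Real.log (N : ℝ) ≤ lg := Real.log_le_log (by linarith) (by exact_mod_cast hN2)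
      have h4 : (X : ℝ) / lg ^ (A + K) ≤ (N : ℝ) / Real.log N ^ A := by
        calc (X : ℝ) / lg ^ (A + K) = (X : ℝ) / lg ^ K / lg ^ A := by rw [pow_add]; field_simp
          _ ≤ N / Real.log N ^ A := by
              apply div_le_div₀ (by linarith) hN3.le (by positivity)
              exact pow_le_pow_left₀ hlN.le hlN2 A
      calc (X : ℝ) ^ 2 / lg ^ (2 * (A + K)) = ((X : ℝ) / lg ^ (A + K)) ^ 2 := by
            rw [div_pow, ← pow_mul]; ring
        _ ≤ DD j N θ ^ 2 := pow_le_pow_left₀ (by positivity) (h4.trans hN4.le) 2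
    have h4 : (T.card : ℝ) * ((X : ℝ) ^ 2 / lg ^ (2 * (A + K))) ≤ X ^ 3 / lg ^ (2 * (A + K) + K) := by
      calc (T.card : ℝ) * ((X : ℝ) ^ 2 / lg ^ (2 * (A + K))) = ∑ N ∈ T, (X : ℝ) ^ 2 / lg ^ (2 * (A + K)) := by
            rw [sum_const, nsmul_eq_mul]
        _ ≤ ∑ N ∈ T, DD j N θ ^ 2 := sum_le_sum h3
        _ ≤ ∑ N ∈ Icc 1 X, DD j N θ ^ 2 :=
            sum_le_sum_of_subset_of_nonneg (filter_subset _ _) fun _ _ _ => sq_nonneg _
        _ ≤ _ := a1 j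
    have h5 : (X : ℝ) ^ 3 / lg ^ (2 * (A + K) + K) = (X / lg ^ K) * ((X : ℝ) ^ 2 / lg ^ (2 * (A + K))) := by
      rw [pow_add lg]
      field_simp
    rw [h5] at h4
    exact le_of_mul_le_mul_right h4 (by positivity)
  have h3 : (Icc 1 X).filter (fun N : ℕ => ∃ j : Bool, (N : ℝ) / Real.log N ^ A < DD j N θ) ⊆
      Icc 1 ⌊(X : ℝ) / lg ^ K⌋₊ ∪ ((Icc 1 X).filter (fun N : ℕ => (X : ℝ) / lg ^ K < N ∧
      (N : ℝ) / Real.log N ^ A < DD false N θ) ∪ (Icc 1 X).filter (fun N : ℕ => (X : ℝ) / lg ^ K < N ∧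
      (N : ℝ) / Real.log N ^ A < DD true N θ)) := by
    intro N hN
    rw [mem_filter, mem_Icc] at hN
    obtain ⟨hN1, j, hj⟩ := hN
    rw [mem_union, mem_union, mem_filter, mem_filter, mem_Icc, mem_Icc]
    rcases le_or_gt (N : ℝ) ((X : ℝ) / lg ^ K) with h | h
    · left
      exact ⟨hN1.1, Nat.le_floor h⟩
    · right
      cases j
      · left; exact ⟨hN1, h, hj⟩
      · right; exact ⟨hN1, h, hj⟩
  have h4 : (((Icc 1 X).filter (fun N : ℕ => ∃ j : Bool, (N : ℝ) / Real.log N ^ A < DD j N θ)).card : ℝ) ≤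
      3 * (X / lg ^ K) := by
    have h5 := (card_le_card h3).trans (card_union_le _ _)
    have h6 := card_union_le ((Icc 1 X).filter (fun N : ℕ => (X : ℝ) / lg ^ K < N ∧
      (N : ℝ) / Real.log N ^ A < DD false N θ)) ((Icc 1 X).filter (fun N : ℕ => (X : ℝ) / lg ^ K < N ∧
      (N : ℝ) / Real.log N ^ A < DD true N θ))
    have h7 : ((Icc 1 ⌊(X : ℝ) / lg ^ K⌋₊).card : ℝ) ≤ X / lg ^ K := by
      rw [Nat.card_Icc, Nat.add_sub_cancel]
      exact Nat.floor_le (by positivity)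
    have h8 := h2 false
    have h9 := h2 true
    have h10 : (((Icc 1 X).filter (fun N : ℕ => ∃ j : Bool, (N : ℝ) / Real.log N ^ A < DD j N θ)).card : ℝ) ≤
        (Icc 1 ⌊(X : ℝ) / lg ^ K⌋₊).card + ((((Icc 1 X).filter (fun N : ℕ => (X : ℝ) / lg ^ K < N ∧
      (N : ℝ) / Real.log N ^ A < DD false N θ)).card : ℝ) + (((Icc 1 X).filter (fun N : ℕ => (X : ℝ) / lg ^ K < N ∧
      (N : ℝ) / Real.log N ^ A < DD true N θ)).card : ℝ)) := by
      exact_mod_cast h5.trans (Nat.add_le_add_left h6 _)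
    linarith
  refine h4.trans ?_
  rw [hK, pow_succ, mul_div_assoc', div_le_div_iff₀ (by positivity) (by positivity)]
  have : 0 ≤ (X : ℝ) * lg ^ B := by positivity
  nlinarith

/-- one exceptional set for all exponents -/
theorem exceptional : ∃ E : Set ℕ,
    (∀ B : ℕ, ∀ᶠ X : ℕ in atTop, ((E ∩ Set.Icc 1 X).ncard : ℝ) ≤ X / Real.log X ^ B) ∧
    ∀ θ : ℝ, θ < 1 → ∀ A : ℕ, ∀ᶠ N : ℕ in atTop, N ∉ E → ∀ j : Bool, DD j N θ ≤ N / Real.log N ^ A := by
  classical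
  have hex : ∀ k : ℕ, ∃ Y : ℕ, ∀ X : ℕ, Y ≤ X → (((Icc 1 X).filter (fun N : ℕ => ∃ j : Bool,
      (N : ℝ) / Real.log N ^ k < DD j N (1 - 1 / ((k : ℝ) + 2)))).card : ℝ) ≤ X / Real.log X ^ k := by
    intro k
    have hk : (0 : ℝ) ≤ k := Nat.cast_nonneg k
    have h1 : 1 / ((k : ℝ) + 2) ≤ 1 / 2 := one_div_le_one_div_of_le (by norm_num) (by linarith)
    have h2 : 0 < 1 / ((k : ℝ) + 2) := by positivity
    exact eventually_atTop.1 (count (1 - 1 / ((k : ℝ) + 2)) (by linarith) (by linarith) k k)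
  choose Y hY using hex
  obtain ⟨Z, hZ⟩ : ∃ Z : ℕ → ℕ, ∀ k, Y k ≤ Z k ∧ k ≤ Z k := ⟨fun k => max (Y k) k, fun k =>
    ⟨le_max_left _ _, le_max_right _ _⟩⟩
  set bad : ℕ → ℕ → Prop := fun k N => ∃ j : Bool,
      (N : ℝ) / Real.log N ^ k < DD j N (1 - 1 / ((k : ℝ) + 2)) with hbad
  have hmono : ∀ k l N : ℕ, 3 ≤ N → k ≤ l → bad k N → bad l N := by
    rintro k l N hN hkl ⟨j, hj⟩
    refine ⟨j, lt_of_le_of_lt ?_ (lt_of_lt_of_le hj ?_)⟩
    · have h3 : (1 : ℝ) ≤ Real.log N := by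
        have h4 : Real.exp 1 ≤ N := by
          have := Real.exp_one_lt_d9
          have h5 : (3 : ℝ) ≤ N := by exact_mod_cast hN
          linarith
        calc (1 : ℝ) = Real.log (Real.exp 1) := (Real.log_exp 1).symm
          _ ≤ _ := Real.log_le_log (Real.exp_pos 1) h4
      exact div_le_div_of_nonneg_left (by positivity) (by positivity) (pow_le_pow_right₀ h3 hkl)
    · apply DD_mono
      have h3 : (k : ℝ) ≤ l := by exact_mod_cast hkl
      have h4 : (0 : ℝ) ≤ k := Nat.cast_nonneg k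
      have h5 : 1 / ((l : ℝ) + 2) ≤ 1 / ((k : ℝ) + 2) := one_div_le_one_div_of_le (by linarith) (by linarith)
      linarith
  refine ⟨{N | 3 ≤ N ∧ ∃ k, Z k ≤ N ∧ bad k N}, ?_, ?_⟩
  · intro B
    filter_upwards [eventually_ge_atTop (Z B), log_ge 1, eventually_ge_atTop 3] with X hX hX1 hX2
    -- the largest admissible index
    have hfin : ((range (X + 1)).filter (fun k => Z k ≤ X)).Nonempty :=
      ⟨B, by rw [mem_filter, mem_range]; exact ⟨by have := (hZ B).2; omega, hX⟩⟩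
    set K := ((range (X + 1)).filter (fun k => Z k ≤ X)).max' hfin with hK
    have hKm : K ∈ (range (X + 1)).filter (fun k => Z k ≤ X) := max'_mem _ _
    rw [mem_filter] at hKm
    have hKmax : ∀ k, Z k ≤ X → k ≤ K := fun k hk =>
      le_max' _ _ (by rw [mem_filter, mem_range]; exact ⟨by have := (hZ k).2; omega, hk⟩)
    have hsub : {N | 3 ≤ N ∧ ∃ k, Z k ≤ N ∧ bad k N} ∩ Set.Icc 1 X ⊆
        ((Icc 1 X).filter (fun N : ℕ => bad K N) : Finset ℕ) := by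
      rintro N ⟨⟨h3, k, h4, h5⟩, h6⟩
      rw [Set.mem_Icc] at h6
      rw [mem_coe, mem_filter, mem_Icc]
      exact ⟨h6, hmono k K N h3 (hKmax k (h4.trans h6.2)) h5⟩
    have h1 : (({N | 3 ≤ N ∧ ∃ k, Z k ≤ N ∧ bad k N} ∩ Set.Icc 1 X).ncard : ℝ) ≤
        (((Icc 1 X).filter (fun N : ℕ => bad K N)).card : ℝ) := by
      have := Set.ncard_le_ncard hsub (finite_toSet _)
      rw [Set.ncard_coe_finset] at this
      exact_mod_cast this
    refine h1.trans ((hY K X ((hZ K).1.trans hKm.2)).trans ?_)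
    exact div_le_div_of_nonneg_left (by positivity) (by positivity) (pow_le_pow_right₀ hX1 (hKmax B hX))
  · intro θ hθ A
    obtain ⟨m, hm⟩ := exists_nat_gt (1 / (1 - θ))
    set k := max m A with hk
    have hθk : θ ≤ 1 - 1 / ((k : ℝ) + 2) := by
      have h1 : 0 < 1 - θ := by linarith
      have h2 : (m : ℝ) ≤ k := by exact_mod_cast le_max_left m A
      have h3 : 1 / (1 - θ) ≤ (k : ℝ) + 2 := by linarith
      have h4 : 1 / ((k : ℝ) + 2) ≤ 1 - θ := by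
        rw [div_le_iff₀ (by positivity)]
        rw [div_le_iff₀ h1] at h3
        linarith
      linarith
    filter_upwards [eventually_ge_atTop (max (Z k) 3), log_ge 1] with N hN hN1 hE j
    have hN3 : 3 ≤ N := (le_max_right _ _).trans hN
    have hnb : ¬ bad k N := fun hb => hE ⟨hN3, k, (le_max_left _ _).trans hN, hb⟩
    rw [hbad] at hnb
    push Not at hnb
    calc DD j N θ ≤ DD j N (1 - 1 / ((k : ℝ) + 2)) := DD_mono j N hθk
      _ ≤ N / Real.log N ^ k := hnb j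
      _ ≤ N / Real.log N ^ A :=
          div_le_div_of_nonneg_left (by positivity) (by positivity)
            (pow_le_pow_right₀ hN1 (le_max_right m A))

end Pool.Agent.Q236.EH
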